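import Mathlib
import Pool.Agent.TH204.CP.Pairs3

/-! Linear forms in two primes from arbitrary sets, for functions which are constant on most short
intervals. -/

set_option autoImplicit false

namespace Pool.Agent.TH465.PP
open Finset Filter Topology Pool.Agent.TH204.CP Pool.Agent.W301.SS Pool.Agent.W41.FU

/-- a bound for the values of the linear forms -/
def ww (a b : ℤ) : ℕ := 2 * (a.natAbs + b.natAbs) + 1

lemma ww_pos (a b : ℤ) : 1 ≤ ww a b := by unfold ww; omega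

lemma ww_eq (a b : ℤ) : 2 * |a| + 2 * |b| + 1 = (ww a b : ℤ) := by
  unfold ww; push_cast; ring

/-- the reduction to sums over all integers -/
theorem gen {s : ℤ} (hs : s = 1 ∨ s = -1) {a b : ℤ} (ha : a ≠ 0) (hb : b ≠ 0) (ε : ℝ) (hε : 0 < ε) :
    ∃ η : ℝ, 0 < η ∧ ∀ᶠ N : ℕ in atTop, ∀ f : ℤ → ℝ, (∀ x, |f x| ≤ 1) → ∀ (E : Finset ℤ) (L' : ℕ),
      (E.card : ℝ) ≤ η * ((ww a b * N : ℕ) : ℝ) → Real.log ((ww a b * N : ℕ) : ℝ) ^ 22 ≤ L' →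
      Loc2 f E (ww a b * N) L' →
      ∀ B B' : Finset ℤ, B ⊆ Icc (1 : ℤ) N → B' ⊆ Icc (1 : ℤ) N → (∀ p ∈ B, p.toNat.Prime) →
      (∀ p ∈ B', p.toNat.Prime) → ∀ c : ℤ, |c| ≤ N → ∃ g g' : ℤ → ℝ,
      (∀ x, 0 ≤ g x ∧ g x ≤ 1) ∧ (∀ x, 0 ≤ g' x ∧ g' x ≤ 1) ∧ (∀ x : ℤ, (N : ℤ) < x → g x = 0) ∧
      (∀ x : ℤ, (N : ℤ) < x → g' x = 0) ∧
      |∑ p ∈ B, ∑ q ∈ B', Fs s f (a * p + (b * q + c))| * Real.log N ^ 2 ≤ ε * N ^ 2 +
        25 * |∑ n ∈ Icc 1 N, ∑ m ∈ Icc 1 N, g (n : ℕ) * (g' (m : ℕ) * Fs s f (a * (n : ℕ) + (b * (m : ℕ) + c)))| := by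
  classical
  set ε₁ : ℝ := ε / 100 with hε₁
  have hε₁0 : 0 < ε₁ := by positivity
  obtain ⟨η, hη0, hη⟩ := badlin ε₁ hε₁0
  set W : ℕ := ww a b with hW
  have hW1 : 1 ≤ W := ww_pos a b
  have hWr : (1 : ℝ) ≤ W := by exact_mod_cast hW1
  have haW : 2 * |a| + 2 * |b| + 1 = (W : ℤ) := ww_eq a b
  have ha0 := abs_nonneg a
  have hb0 := abs_nonneg b
  refine ⟨η / W, by positivity, ?_⟩
  filter_upwards [hη, crowded ε₁ hε₁0,
    ev_L (2 * W), ev_powR 22 (2 / η), ev_powR 22 (2 / ε₁), pi_unif 1 one_pos,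
    eventually_ge_atTop 1] with N h1 h2 h4 h5 h6 hpi hN1 f hfabs E L' hE hL1' hLoc B B' hB hB' hBp hBp' c hc
  have hNr : (1 : ℝ) ≤ N := by exact_mod_cast hN1
  set ℓ := Real.log (N : ℝ) with hℓ
  have hℓW : (2 : ℝ) * W ≤ ℓ := h4
  have hℓ1 : (1 : ℝ) ≤ ℓ := by linarith
  have hℓ0 : (0 : ℝ) ≤ ℓ := by linarith
  set L : ℕ := ⌈ℓ ^ 21⌉₊ with hL
  have hL1 : ℓ ^ 21 ≤ L := Nat.le_ceil _
  have hp21 : (1 : ℝ) ≤ ℓ ^ 21 := one_le_pow₀ hℓ1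
  have hL2 : (L : ℝ) ≤ 2 * ℓ ^ 21 := by
    have := (Nat.ceil_lt_add_one (by positivity : (0 : ℝ) ≤ ℓ ^ 21)).le
    rw [← hL] at this
    linarith
  have hLn : 1 ≤ L := by
    have : (1 : ℝ) ≤ L := hp21.trans hL1
    exact_mod_cast this
  have hL20 : ℓ ^ 20 ≤ L := (pow_le_pow_right₀ hℓ1 (by norm_num)).trans hL1
  have hLℓ : (L : ℝ) * ℓ ≤ 2 * ℓ ^ 22 := by
    calc (L : ℝ) * ℓ ≤ 2 * ℓ ^ 21 * ℓ := mul_le_mul_of_nonneg_right hL2 hℓ0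
      _ = _ := by ring
  have hLη : (L : ℝ) * ℓ ≤ η * N := by
    refine hLℓ.trans ?_
    have := mul_le_mul_of_nonneg_left h5 hη0.le
    calc 2 * ℓ ^ 22 = η * (2 / η * ℓ ^ 22) := by field_simp
      _ ≤ _ := this
  have hLε : (L : ℝ) * ℓ ≤ ε₁ * N := by
    refine hLℓ.trans ?_
    have := mul_le_mul_of_nonneg_left h6 hε₁0.le
    calc 2 * ℓ ^ 22 = ε₁ * (2 / ε₁ * ℓ ^ 22) := by field_simp
      _ ≤ _ := this
  have hWL : (W : ℝ) * L ≤ L' := by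
    have e1 : ℓ ≤ Real.log ((W * N : ℕ) : ℝ) := by
      apply Real.log_le_log (by linarith)
      push_cast
      nlinarith
    calc (W : ℝ) * L ≤ W * (2 * ℓ ^ 21) := mul_le_mul_of_nonneg_left hL2 (by positivity)
      _ = (2 * W) * ℓ ^ 21 := by ring
      _ ≤ ℓ * ℓ ^ 21 := mul_le_mul_of_nonneg_right hℓW (by positivity)
      _ = ℓ ^ 22 := by ring
      _ ≤ Real.log ((W * N : ℕ) : ℝ) ^ 22 := pow_le_pow_left₀ hℓ0 e1 22
      _ ≤ L' := hL1'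
  have hWL' : (W : ℤ) * L ≤ L' := by exact_mod_cast hWL
  have hEN : (E.card : ℝ) ≤ η * N := by
    refine hE.trans (le_of_eq ?_)
    push_cast
    field_simp
  have hwL : ∀ w : ℤ, |w| ≤ |a| + |b| → |w| * L ≤ L' := by
    intro w hw
    refine le_trans ?_ hWL'
    apply mul_le_mul_of_nonneg_right _ (Int.natCast_nonneg _)
    linarith
  have hWN : ((W * N : ℕ) : ℤ) = 2 * |a| * N + 2 * |b| * N + N := by
    push_cast
    rw [← haW]; ring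
  -- first variable
  have hbadA : ∀ b₀ : ℤ, |b₀| ≤ |b| * N + N →
      |(∑ p ∈ B, Fs s f (a * p + b₀)) * ℓ - 5 * ∑ n ∈ Icc 1 N, gB B N L (n : ℕ) * Fs s f (a * (n : ℕ) + b₀)| ≤
      5 * ε₁ * N := by
    intro b₀ hb₀
    refine avg2 hLn hB hBp hfabs a b₀ ?_ hLε (h2 L hL20)
    refine h1 L hL1 hLη s a b₀ hs ha f E (W * N) L' hEN hLoc (hwL a (by linarith)) ?_
    rw [hWN]
    have : 0 ≤ |b| * (N : ℤ) := by positivity
    linarith
  have hbadB : ∀ b₀ : ℤ, |b₀| ≤ |a| * N + N →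
      |(∑ p ∈ B', Fs s f (b * p + b₀)) * ℓ - 5 * ∑ n ∈ Icc 1 N, gB B' N L (n : ℕ) * Fs s f (b * (n : ℕ) + b₀)| ≤
      5 * ε₁ * N := by
    intro b₀ hb₀
    refine avg2 hLn hB' hBp' hfabs b b₀ ?_ hLε (h2 L hL20)
    refine h1 L hL1 hLη s b b₀ hs hb f E (W * N) L' hEN hLoc (hwL b (by linarith)) ?_
    rw [hWN]
    have : 0 ≤ |a| * (N : ℤ) := by positivity
    linarith
  have habs1 : ∀ (w z : ℤ), 1 ≤ z → z ≤ N → |w * z + c| ≤ |w| * N + N := by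
    intro w z hz1 hz2
    refine (abs_add_le _ _).trans ?_
    rw [abs_mul, abs_of_nonneg (by omega : 0 ≤ z)]
    have := mul_le_mul_of_nonneg_left hz2 (abs_nonneg w)
    linarith
  have hcard : (B'.card : ℝ) * ℓ ≤ 2 * N := by
    have h7 : (B'.card : ℝ) ≤ Nat.primeCounting N := by exact_mod_cast card_primes hB' hBp'
    have h8 := (abs_le.1 (hpi N (by omega))).2
    have h9 := mul_le_mul_of_nonneg_right h7 hℓ0
    linarith
  -- step 1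
  set T := ∑ p ∈ B, ∑ q ∈ B', Fs s f (a * p + (b * q + c)) with hT
  set T1 := ∑ q ∈ B', ∑ n ∈ Icc 1 N, gB B N L (n : ℕ) * Fs s f (a * (n : ℕ) + (b * q + c)) with hT1
  have s1 : |T * ℓ - 5 * T1| * ℓ ≤ 10 * ε₁ * N ^ 2 := by
    have e1 : T * ℓ - 5 * T1 = ∑ q ∈ B', ((∑ p ∈ B, Fs s f (a * p + (b * q + c))) * ℓ -
        5 * ∑ n ∈ Icc 1 N, gB B N L (n : ℕ) * Fs s f (a * (n : ℕ) + (b * q + c))) := by
      rw [hT, hT1, sum_comm, sum_sub_distrib, Finset.sum_mul, mul_sum]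
    rw [e1]
    have e2 : |∑ q ∈ B', ((∑ p ∈ B, Fs s f (a * p + (b * q + c))) * ℓ -
        5 * ∑ n ∈ Icc 1 N, gB B N L (n : ℕ) * Fs s f (a * (n : ℕ) + (b * q + c)))| ≤ B'.card * (5 * ε₁ * N) := by
      refine (abs_sum_le_sum_abs _ _).trans ?_
      rw [← nsmul_eq_mul, ← sum_const]
      apply sum_le_sum
      intro q hq
      have h7 := hB' hq
      rw [mem_Icc] at h7
      exact hbadA _ (habs1 b q h7.1 h7.2)
    calc _ ≤ (B'.card * (5 * ε₁ * N)) * ℓ := mul_le_mul_of_nonneg_right e2 hℓ0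
      _ = (5 * ε₁ * N) * (B'.card * ℓ) := by ring
      _ ≤ (5 * ε₁ * N) * (2 * N) := mul_le_mul_of_nonneg_left hcard (by positivity)
      _ = _ := by ring
  -- step 2
  set T2 := ∑ n ∈ Icc 1 N, ∑ m ∈ Icc 1 N, gB B N L (n : ℕ) * (gB B' N L (m : ℕ) *
    Fs s f (a * (n : ℕ) + (b * (m : ℕ) + c))) with hT2
  have s2 : |T1 * ℓ - 5 * T2| ≤ 5 * ε₁ * N ^ 2 := by
    have e1 : T1 * ℓ - 5 * T2 = ∑ n ∈ Icc 1 N, gB B N L (n : ℕ) * ((∑ q ∈ B', Fs s f (b * q + (a * (n : ℕ) + c))) * ℓ -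
        5 * ∑ m ∈ Icc 1 N, gB B' N L (m : ℕ) * Fs s f (b * (m : ℕ) + (a * (n : ℕ) + c))) := by
      rw [hT1, hT2, sum_comm, Finset.sum_mul, mul_sum, ← sum_sub_distrib]
      apply sum_congr rfl
      intro n _
      rw [mul_sub]
      congr 1
      · rw [← mul_sum, mul_assoc]
        congr 2
        apply sum_congr rfl
        intro q _
        congr 1
        ring
      · rw [mul_left_comm]
        congr 1
        rw [mul_sum]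
        apply sum_congr rfl
        intro m _
        congr 3
        ring
    rw [e1]
    refine (abs_sum_le_sum_abs _ _).trans ?_
    have e2 : ∀ n ∈ Icc 1 N, |gB B N L (n : ℕ) * ((∑ q ∈ B', Fs s f (b * q + (a * (n : ℕ) + c))) * ℓ -
        5 * ∑ m ∈ Icc 1 N, gB B' N L (m : ℕ) * Fs s f (b * (m : ℕ) + (a * (n : ℕ) + c)))| ≤ 5 * ε₁ * N := by
      intro n hn
      rw [mem_Icc] at hn
      obtain ⟨g0, g1⟩ := gB_mem hBp (N := N) hLn (n : ℤ)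
      rw [abs_mul, abs_of_nonneg g0]
      have h7 := hbadB _ (habs1 a n (by omega) (by omega))
      calc _ ≤ 1 * (5 * ε₁ * N) := mul_le_mul g1 h7 (abs_nonneg _) zero_le_one
        _ = _ := by ring
    refine (sum_le_sum e2).trans ?_
    rw [sum_const, Nat.card_Icc, nsmul_eq_mul, Nat.add_sub_cancel]
    apply le_of_eq
    ring
  refine ⟨gB B N L, gB B' N L, fun x => gB_mem hBp hLn x, fun x => gB_mem hBp' hLn x,
    fun x hx => gB_zero hx, fun x hx => gB_zero hx, ?_⟩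
  -- the end
  have e1 : T * ℓ ^ 2 = (T * ℓ - 5 * T1) * ℓ + 5 * (T1 * ℓ - 5 * T2) + 25 * T2 := by ring
  have e2 : |T| * ℓ ^ 2 = |T * ℓ ^ 2| := by rw [abs_mul, abs_of_nonneg (by positivity : (0 : ℝ) ≤ ℓ ^ 2)]
  rw [e2, e1]
  have e3 := abs_add_three ((T * ℓ - 5 * T1) * ℓ) (5 * (T1 * ℓ - 5 * T2)) (25 * T2)
  rw [abs_mul, abs_of_nonneg hℓ0, abs_mul, abs_mul, abs_of_pos (by norm_num : (0 : ℝ) < 5),
    abs_of_pos (by norm_num : (0 : ℝ) < 25)] at e3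
  have hN2 : (0 : ℝ) ≤ (N : ℝ) ^ 2 := by positivity
  have e4 : 10 * ε₁ * (N : ℝ) ^ 2 + 5 * (5 * ε₁ * N ^ 2) ≤ ε * N ^ 2 := by
    rw [hε₁]
    nlinarith
  linarith

/-- functions with small Fourier coefficients -/
theorem gen_fou {s : ℤ} (hs : s = 1 ∨ s = -1) {a b : ℤ} (ha : a ≠ 0) (hb : b ≠ 0) (ε : ℝ) (hε : 0 < ε) :
    ∃ η : ℝ, 0 < η ∧ ∀ᶠ N : ℕ in atTop, ∀ f : ℤ → ℝ, (∀ x, |f x| ≤ 1) → ∀ (E : Finset ℤ) (L' : ℕ),
      (E.card : ℝ) ≤ η * ((ww a b * N : ℕ) : ℝ) → Real.log ((ww a b * N : ℕ) : ℝ) ^ 22 ≤ L' →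
      Loc2 f E (ww a b * N) L' →
      (∀ α : ℝ, ‖EE f (ww a b * N) α‖ ≤ η * ((ww a b * N : ℕ) : ℝ)) →
      ∀ B B' : Finset ℤ, B ⊆ Icc (1 : ℤ) N → B' ⊆ Icc (1 : ℤ) N → (∀ p ∈ B, p.toNat.Prime) →
      (∀ p ∈ B', p.toNat.Prime) → ∀ c : ℤ, |c| ≤ N →
      |∑ p ∈ B, ∑ q ∈ B', Fs s f (a * p + (b * q + c))| * Real.log N ^ 2 ≤ ε * N ^ 2 := by
  obtain ⟨η, hη0, h⟩ := gen hs ha hb (ε / 2) (by positivity)
  have hW1 : 1 ≤ ww a b := ww_pos a b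
  have hWr : (1 : ℝ) ≤ ww a b := by exact_mod_cast hW1
  have hW0 : (0 : ℝ) < ww a b := by linarith
  set W : ℕ := ww a b with hW
  have haW : 2 * |a| + 2 * |b| + 1 = (W : ℤ) := ww_eq a b
  have ha0 := abs_nonneg a
  have hb0 := abs_nonneg b
  refine ⟨min η (ε / (50 * W ^ 2)), lt_min hη0 (by positivity), ?_⟩
  filter_upwards [h] with N h1 f hfabs E L' hE hL1' hLoc hF B B' hB hB' hBp hBp' c hc
  have hN0 : (0 : ℝ) ≤ ((W * N : ℕ) : ℝ) := Nat.cast_nonneg _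
  obtain ⟨g, g', hg, hg', hgz, hgz', h2⟩ := h1 f hfabs E L'
    (hE.trans (mul_le_mul_of_nonneg_right (min_le_left _ _) hN0)) hL1' hLoc B B' hB hB' hBp hBp' c hc
  refine h2.trans ?_
  have hWN : ((W * N : ℕ) : ℤ) = 2 * |a| * N + 2 * |b| * N + N := by
    push_cast
    rw [← haW]; ring
  have hNW : N ≤ W * N := Nat.le_mul_of_pos_left N (by omega)
  have s3 : |∑ n ∈ Icc 1 N, ∑ m ∈ Icc 1 N, g (n : ℕ) * (g' (m : ℕ) * Fs s f (a * (n : ℕ) + (b * (m : ℕ) + c)))| ≤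
      ε / 50 * N ^ 2 := by
    rw [main_TT hs (N' := W * N) hNW ?_ hgz hgz']
    · have hs0 : -s ≠ 0 := by rcases hs with rfl | rfl <;> norm_num
      refine (TT_bound ha hb hs0 (-c) (K := ε / (50 * W ^ 2) * ((W * N : ℕ) : ℝ)) (N := W * N) ?_ ?_ hfabs
        (Or.inr (Or.inr ?_))).trans ?_
      · intro x
        rw [abs_of_nonneg (hg x).1]; exact (hg x).2
      · intro x
        rw [abs_of_nonneg (hg' x).1]; exact (hg' x).2
      · intro α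
        exact (hF α).trans (mul_le_mul_of_nonneg_right (min_le_right _ _) hN0)
      · push_cast
        apply le_of_eq
        field_simp
    · rw [hWN]
      have : (0 : ℤ) ≤ (|a| + |b|) * N := by positivity
      nlinarith
  linarith

end Pool.Agent.TH465.PP
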