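import Mathlib
import Pool.Agent.TH465.PP.Gen
import Pool.Agent.TH465.HP.App
import Pool.Agent.W36.JL.J8

/-! Sets squeezed between locally constant sets, along linear forms in two primes. -/

set_option autoImplicit false

namespace Pool.Agent.TH465.PP
open Finset Filter Topology Pool.Agent.TH204.CP Pool.Agent.TH465.HP
open Pool.Agent.W41.FU (EE)
open Pool.Agent.W36.JL (EE_cmp)

/-- from one sided to two sided local constancy -/
lemma loc2_of {P : ℤ → Prop} {E : Finset ℤ} {N L : ℕ} (h : LocE P E N L) (δ : ℝ) :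
    Loc2 (fun x => ind P x - δ) (Icc (1 : ℤ) (3 * ((L / 2 : ℕ) : ℤ)) ∪ E.image (fun x => x + 3 * ((L / 2 : ℕ) : ℤ)))
      N (L / 2) := by
  intro n hn hnE h' hh
  rw [mem_union, not_or, mem_Icc, mem_image] at hnE
  obtain ⟨g1, g2⟩ := hnE
  obtain ⟨k, hk⟩ : ∃ k : ℕ, k = L / 2 := ⟨_, rfl⟩
  rw [← hk] at g1 g2 hh
  rw [mem_Icc] at hn hh
  have hkL : 2 * k ≤ L := by omega
  have h0 : n - 3 * k ∈ Icc (1 : ℤ) N := by rw [mem_Icc]; omega
  have h1 : n - 3 * k ∉ E := fun hE => g2 ⟨n - 3 * k, hE, by ring⟩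
  have e1 := h (n - 3 * k) h0 h1 (3 * k) (by rw [mem_Icc]; omega)
  have e2 := h (n - 3 * k) h0 h1 (3 * k + h') (by rw [mem_Icc]; omega)
  have e3 : n - 3 * (k : ℤ) + 3 * k = n := by ring
  have e4 : n - 3 * (k : ℤ) + (3 * k + h') = n + h' := by ring
  rw [e3] at e1
  rw [e4] at e2
  simp only
  rw [ind_congr (e2.trans e1.symm)]

lemma card_loc2 (E : Finset ℤ) (L : ℕ) :
    ((Icc (1 : ℤ) (3 * ((L / 2 : ℕ) : ℤ)) ∪ E.image (fun x => x + 3 * ((L / 2 : ℕ) : ℤ))).card : ℝ) ≤ E.card + 2 * L := by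
  have h1 := card_union_le (Icc (1 : ℤ) (3 * ((L / 2 : ℕ) : ℤ))) (E.image (fun x => x + 3 * ((L / 2 : ℕ) : ℤ)))
  have h2 : (E.image (fun x => x + 3 * ((L / 2 : ℕ) : ℤ))).card ≤ E.card := card_image_le
  rw [Int.card_Icc] at h1
  have h3 : (Icc (1 : ℤ) (3 * ((L / 2 : ℕ) : ℤ)) ∪ E.image (fun x => x + 3 * ((L / 2 : ℕ) : ℤ))).card ≤ E.card + 2 * L := by
    omega
  exact_mod_cast h3

/-- small Fourier coefficients of the balanced indicator function at every scale -/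
def Fou (W : ℕ → ℤ → Prop) (δ : ℝ) : Prop := ∀ ε : ℝ, 0 < ε → ∀ᶠ N : ℕ in atTop,
  ∀ α : ℝ, ‖EE (fun x => ind (W N) x - δ) N α‖ ≤ ε * N

lemma EE_near {V W : ℤ → Prop} {N : ℕ} {δ δ' κ : ℝ} (α : ℝ)
    (h : (∀ x ∈ Icc (1 : ℤ) N, V x → W x) ∨ (∀ x ∈ Icc (1 : ℤ) N, W x → V x))
    (hc : |cnt W N - cnt V N| ≤ κ * N) :
    ‖EE (fun x => ind W x - δ) N α‖ ≤ ‖EE (fun x => ind V x - δ') N α‖ + (κ + |δ - δ'|) * N := by
  refine (EE_cmp (fun x => ind W x - δ) (fun x => ind V x - δ') N α).trans ?_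
  have e1 : ∑ n ∈ Icc (1 : ℤ) N, |(ind W n - δ) - (ind V n - δ')| ≤
      ∑ n ∈ Icc (1 : ℤ) N, (|ind W n - ind V n| + |δ - δ'|) := by
    apply sum_le_sum
    intro n _
    have e : (ind W n - δ) - (ind V n - δ') = (ind W n - ind V n) + -(δ - δ') := by ring
    rw [e]
    refine (abs_add_le _ _).trans ?_
    rw [abs_neg]
  have e2 : ∑ n ∈ Icc (1 : ℤ) N, (|ind W n - ind V n| + |δ - δ'|) =
      ∑ n ∈ Icc (1 : ℤ) N, |ind W n - ind V n| + |δ - δ'| * N := by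
    rw [sum_add_distrib, sum_const, Int.card_Icc, nsmul_eq_mul]
    have : ((N : ℤ) + 1 - 1).toNat = N := by omega
    rw [this]; ring
  have e3 : ∑ n ∈ Icc (1 : ℤ) N, |ind W n - ind V n| ≤ |cnt W N - cnt V N| := by
    rcases h with h | h
    · have e : ∑ n ∈ Icc (1 : ℤ) N, |ind W n - ind V n| = cnt W N - cnt V N := by
        unfold cnt
        rw [← sum_sub_distrib]
        apply sum_congr rfl
        intro n hn
        exact abs_of_nonneg (sub_nonneg.2 (ind_mono (h n hn)))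
      rw [e]; exact le_abs_self _
    · have e : ∑ n ∈ Icc (1 : ℤ) N, |ind W n - ind V n| = -(cnt W N - cnt V N) := by
        unfold cnt
        rw [← sum_sub_distrib, ← sum_neg_distrib]
        apply sum_congr rfl
        intro n hn
        exact abs_of_nonpos (sub_nonpos.2 (ind_mono (h n hn)))
      rw [e]; exact neg_le_abs _
  linarith

/-- LINEAR FORMS IN TWO PRIMES -/
theorem App_pairs {W : ℕ → ℤ → Prop} {δ : ℝ} (h0 : 0 ≤ δ) (h1 : δ ≤ 1) (hW : App W δ) (hF : Fou W δ)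
    {a b : ℤ} (ha : a ≠ 0) (hb : b ≠ 0) (ε : ℝ) (hε : 0 < ε) :
    ∀ᶠ N : ℕ in atTop, ∀ B B' : Finset ℤ, B ⊆ Icc (1 : ℤ) N → B' ⊆ Icc (1 : ℤ) N → (∀ p ∈ B, p.toNat.Prime) →
      (∀ p ∈ B', p.toNat.Prime) → ∀ c : ℤ, |c| ≤ N →
      |∑ p ∈ B, ∑ q ∈ B', Fs 1 (fun x => ind (W (ww a b * N)) x - δ) (a * p + (b * q + c))| * Real.log N ^ 2 ≤
        ε * N ^ 2 := by
  obtain ⟨η, hη0, h⟩ := gen_fou (Or.inl rfl : (1 : ℤ) = 1 ∨ (1 : ℤ) = -1) ha hb ε hε
  have ht : Tendsto (fun N : ℕ => ww a b * N) atTop atTop := tendsto_id.const_mul_atTop' (ww_pos a b)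
  filter_upwards [h, ht.eventually (hW (η / 8) (by positivity) 23), ht.eventually (hF (η / 2) (by positivity)),
    ht.eventually (tlog.eventually_ge_atTop 4)] with N h1' h2 h3 h4 B B' hB hB' hBp hBp' c hc
  have hwm : 2 * |a| + 2 * |b| + 1 = (ww a b : ℤ) := ww_eq a b
  have hMN : ((ww a b * N : ℕ) : ℤ) = 2 * |a| * N + 2 * |b| * N + N := by
    push_cast
    rw [← hwm]; ring
  set M := ww a b * N with hM
  obtain ⟨E, L, P, P', hE, hL1, hL2, hloc, hloc', hsq, hden⟩ := h2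
  have hM0 : (0 : ℝ) ≤ (M : ℝ) := Nat.cast_nonneg _
  set ℓ := Real.log (M : ℝ) with hℓ
  have key : ∀ Q : ℤ → Prop, LocE Q E M L → (∀ α : ℝ, ‖EE (fun x => ind Q x - δ) M α‖ ≤ η * M) →
      |∑ p ∈ B, ∑ q ∈ B', Fs 1 (fun x => ind Q x - δ) (a * p + (b * q + c))| * Real.log N ^ 2 ≤ ε * N ^ 2 := by
    intro Q hQ hQF
    refine h1' (fun x => ind Q x - δ) ?_ _ (L / 2) ?_ ?_ (loc2_of hQ δ) hQF B B' hB hB' hBp hBp' c hc
    · intro x
      have := ind_mem Q x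
      rw [abs_le]; constructor <;> linarith
    · refine (card_loc2 E L).trans ?_
      have : (L : ℝ) * 4 ≤ L * ℓ := mul_le_mul_of_nonneg_left h4 (Nat.cast_nonneg _)
      nlinarith
    · have g1 : (1 : ℝ) ≤ ℓ ^ 22 := one_le_pow₀ (by linarith)
      have g2 : 4 * ℓ ^ 22 ≤ ℓ ^ 23 := by
        rw [pow_succ ℓ 22]
        nlinarith
      have g3 : L ≤ 2 * (L / 2) + 1 := by omega
      have g4 : (L : ℝ) ≤ 2 * ((L / 2 : ℕ) : ℝ) + 1 := by exact_mod_cast g3
      linarith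
  have hd := hden M le_rfl
  have hdP := abs_le.1 hd.1
  have hdP' := abs_le.1 hd.2
  have c1 : cnt P M ≤ cnt (W M) M := cnt_mono' fun x hx => (hsq x hx).1
  have c2 : cnt (W M) M ≤ cnt P' M := cnt_mono' fun x hx => (hsq x hx).2
  have f1 : ∀ α : ℝ, ‖EE (fun x => ind P x - δ) M α‖ ≤ η * M := by
    intro α
    have g := EE_near (V := W M) (W := P) (N := M) (δ := δ) (δ' := δ) (κ := η / 2) α
      (Or.inr fun x hx => (hsq x hx).1) (by rw [abs_le]; constructor <;> nlinarith [hdP.1, hdP.2, hdP'.1, hdP'.2])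
    rw [sub_self, abs_zero, add_zero] at g
    have := h3 α
    linarith
  have f2 : ∀ α : ℝ, ‖EE (fun x => ind P' x - δ) M α‖ ≤ η * M := by
    intro α
    have g := EE_near (V := W M) (W := P') (N := M) (δ := δ) (δ' := δ) (κ := η / 2) α
      (Or.inl fun x hx => (hsq x hx).2) (by rw [abs_le]; constructor <;> nlinarith [hdP.1, hdP.2, hdP'.1, hdP'.2])
    rw [sub_self, abs_zero, add_zero] at g
    have := h3 α
    linarith
  have mono : ∀ Q Q' : ℤ → Prop, (∀ x ∈ Icc (1 : ℤ) M, Q x → Q' x) →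
      ∑ p ∈ B, ∑ q ∈ B', Fs 1 (fun x => ind Q x - δ) (a * p + (b * q + c)) ≤
      ∑ p ∈ B, ∑ q ∈ B', Fs 1 (fun x => ind Q' x - δ) (a * p + (b * q + c)) := by
    intro Q Q' hQ
    refine sum_le_sum fun p hp => sum_le_sum fun q hq => ?_
    have hp1 := mem_Icc.1 (hB hp)
    have hq1 := mem_Icc.1 (hB' hq)
    have hzM : a * p + (b * q + c) ≤ M := by
      have e1 : a * p ≤ |a| * N := (mul_le_mul_of_nonneg_right (le_abs_self a) (by omega)).trans
        (mul_le_mul_of_nonneg_left hp1.2 (abs_nonneg _))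
      have e2 : b * q ≤ |b| * N := (mul_le_mul_of_nonneg_right (le_abs_self b) (by omega)).trans
        (mul_le_mul_of_nonneg_left hq1.2 (abs_nonneg _))
      have e3 := (abs_le.1 hc).2
      have e4 : 0 ≤ |a| * (N : ℤ) := by positivity
      have e5 : 0 ≤ |b| * (N : ℤ) := by positivity
      rw [hMN]
      linarith
    unfold Fs
    split_ifs with hz
    · simp only [one_mul] at hz ⊢
      have := ind_mono (hQ _ (mem_Icc.2 ⟨hz, hzM⟩))
      linarith
    · exact le_rfl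
  have k1 := mono P (W M) fun x hx => (hsq x hx).1
  have k2 := mono (W M) P' fun x hx => (hsq x hx).2
  have g1 := key P hloc f1
  have g2 := key P' hloc' f2
  have hl : 0 ≤ Real.log (N : ℝ) ^ 2 := by positivity
  have conv : ∀ S : ℝ, |S| * Real.log N ^ 2 = |S * Real.log N ^ 2| := by
    intro S
    rw [abs_mul, abs_of_nonneg hl]
  rw [conv] at g1 g2 ⊢
  rw [abs_le] at g1 g2 ⊢
  have m1 := mul_le_mul_of_nonneg_right k1 hl
  have m2 := mul_le_mul_of_nonneg_right k2 hl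
  constructor
  · exact g1.1.trans m1
  · exact m2.trans g2.2

end Pool.Agent.TH465.PP
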