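import Mathlib
import Pool.Agent.TH465.HP.Avg

/-! The laws of additive functions of the hitting time and the number of odd terms, at every scale. -/

set_option autoImplicit false

namespace Pool.Agent.TH465.PP
open Finset Filter Topology Pool.Agent.TH204.CP Pool.Agent.TH465.HP
open Pool.Agent.H499R2.HL (H sqrt_add)
open Pool.Agent.H499R2.LT (odn)
open Pool.Agent.H499R2.ND (Tn Dn Phi Phi_continuous phi_cdf)

/-- thresholds -/
noncomputable def th (A c x : ℝ) (n : ℕ) : ℝ := A * Real.log n + x * (c * √ (Real.log n))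

lemma th_cmp {A c : ℝ} (hA : 0 ≤ A) (hc : 0 < c) {x y κ : ℝ} (hxy : x < y) (hκ : 0 < κ) :
    ∀ᶠ N : ℕ in atTop, ∀ z : ℕ, κ * N < z → z ≤ N → th A c x z ≤ th A c y N ∧ th A c x N ≤ th A c y z := by
  set D : ℝ := |Real.log κ| with hD
  have hD0 : 0 ≤ D := abs_nonneg _
  filter_upwards [tsqrt.eventually_ge_atTop ((A * D + c * (|x| + |y|) * √ D) / (c * (y - x))),
    eventually_ge_atTop 1] with N h1 h2 z hz1 hz2
  obtain ⟨h3, h4⟩ := log_scale hκ h2 hz1 hz2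
  rw [div_le_iff₀ (mul_pos hc (by linarith))] at h1
  have hz0 : 0 ≤ Real.log (z : ℝ) := Real.log_natCast_nonneg z
  unfold th
  set ℓ := Real.log (N : ℝ) with hℓ
  set ℓ' := Real.log (z : ℝ) with hℓ'
  have h5 : √ ℓ' ≤ √ ℓ := Real.sqrt_le_sqrt h3
  have h6 : √ ℓ ≤ √ ℓ' + √ D := (Real.sqrt_le_sqrt h4).trans (sqrt_add hz0 hD0)
  have hsD : 0 ≤ √ D := Real.sqrt_nonneg D
  have hax := abs_nonneg x
  have hay := abs_nonneg y
  have hAD : 0 ≤ A * D := mul_nonneg hA hD0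
  have hA1 : A * ℓ' ≤ A * ℓ := mul_le_mul_of_nonneg_left h3 hA
  have hA2 : A * ℓ ≤ A * (ℓ' + D) := mul_le_mul_of_nonneg_left h4 hA
  have q1 : 0 ≤ √ ℓ - √ ℓ' := by linarith
  have q2 : √ ℓ - √ ℓ' ≤ √ D := by linarith
  have p1 : -(|x| * √ D) ≤ x * (√ ℓ - √ ℓ') := by
    have q3 : -|x| * (√ ℓ - √ ℓ') ≤ x * (√ ℓ - √ ℓ') := mul_le_mul_of_nonneg_right (neg_abs_le x) q1
    have q4 : |x| * (√ ℓ - √ ℓ') ≤ |x| * √ D := mul_le_mul_of_nonneg_left q2 hax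
    linarith
  have p2 : y * (√ ℓ - √ ℓ') ≤ |y| * √ D := by
    have q3 : y * (√ ℓ - √ ℓ') ≤ |y| * (√ ℓ - √ ℓ') := mul_le_mul_of_nonneg_right (le_abs_self y) q1
    have q4 : |y| * (√ ℓ - √ ℓ') ≤ |y| * √ D := mul_le_mul_of_nonneg_left q2 hay
    linarith
  have p1' := mul_le_mul_of_nonneg_left p1 hc.le
  have p2' := mul_le_mul_of_nonneg_left p2 hc.le
  have p3 : 0 ≤ c * (|y| * √ D) := by positivity
  have p4 : 0 ≤ c * (|x| * √ D) := by positivity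
  constructor
  · nlinarith
  · nlinarith

lemma th_low {A c c' κ : ℝ} (hA : 0 ≤ A) (hc : 0 < c) (h : c' < A) (hκ : 0 < κ) (x : ℝ) : ∀ᶠ N : ℕ in atTop,
    ∀ z : ℕ, κ * N < z → z ≤ N → c' * Real.log N ≤ th A c x z := by
  set D : ℝ := |Real.log κ| with hD
  have hD0 : 0 ≤ D := abs_nonneg _
  filter_upwards [tsqrt.eventually_ge_atTop ((A * D + |x| * c) / (A - c')),
    tsqrt.eventually_ge_atTop 1, eventually_ge_atTop 1] with N h1 h1' h2 z hz1 hz2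
  obtain ⟨h3, h4⟩ := log_scale hκ h2 hz1 hz2
  rw [div_le_iff₀ (by linarith)] at h1
  have hz0 : 0 ≤ Real.log (z : ℝ) := Real.log_natCast_nonneg z
  have hN0 : 0 ≤ Real.log (N : ℝ) := Real.log_natCast_nonneg N
  unfold th
  set ℓ := Real.log (N : ℝ) with hℓ
  set ℓ' := Real.log (z : ℝ) with hℓ'
  have h5 : √ ℓ' ≤ √ ℓ := Real.sqrt_le_sqrt h3
  have h5' : 0 ≤ √ ℓ' := Real.sqrt_nonneg _
  have hA2 : A * ℓ ≤ A * (ℓ' + D) := mul_le_mul_of_nonneg_left h4 hA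
  have hs : √ ℓ * √ ℓ = ℓ := Real.mul_self_sqrt hN0
  have hax := abs_nonneg x
  have hAD : 0 ≤ A * D := mul_nonneg hA hD0
  have q1 : -(|x| * c * √ ℓ) ≤ x * (c * √ ℓ') := by
    have q2 : -|x| * (c * √ ℓ') ≤ x * (c * √ ℓ') := mul_le_mul_of_nonneg_right (neg_abs_le x) (by positivity)
    have q3 : |x| * c * √ ℓ' ≤ |x| * c * √ ℓ := mul_le_mul_of_nonneg_left h5 (by positivity)
    linarith
  have q4 : (A * D + |x| * c) * √ ℓ ≤ √ ℓ * (A - c') * √ ℓ := mul_le_mul_of_nonneg_right h1 (by linarith)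
  have q5 : A * D ≤ A * D * √ ℓ := le_mul_of_one_le_right hAD h1'
  have q6 : √ ℓ * (A - c') * √ ℓ = A * ℓ - c' * ℓ := by
    calc √ ℓ * (A - c') * √ ℓ = (√ ℓ * √ ℓ) * (A - c') := by ring
      _ = ℓ * (A - c') := by rw [hs]
      _ = _ := by ring
  nlinarith

lemma th_upp {A c c' : ℝ} (hA : 0 ≤ A) (hc : 0 < c) (h : A < c') (x : ℝ) : ∀ᶠ N : ℕ in atTop, ∀ z : ℕ, z ≤ N →
    th A c x z ≤ c' * Real.log N := by
  filter_upwards [tsqrt.eventually_ge_atTop (|x| * c / (c' - A)), eventually_ge_atTop 1] with N h1 h2 z hz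
  rw [div_le_iff₀ (by linarith)] at h1
  have hz0 : 0 ≤ Real.log (z : ℝ) := Real.log_natCast_nonneg z
  have hN0 : 0 ≤ Real.log (N : ℝ) := Real.log_natCast_nonneg N
  have h3 : Real.log (z : ℝ) ≤ Real.log N := by
    rcases Nat.eq_zero_or_pos z with h | h
    · rw [h, Nat.cast_zero, Real.log_zero]; exact hN0
    · exact Real.log_le_log (by exact_mod_cast h) (by exact_mod_cast hz)
  unfold th
  set ℓ := Real.log (N : ℝ) with hℓ
  set ℓ' := Real.log (z : ℝ) with hℓ'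
  have h5 : √ ℓ' ≤ √ ℓ := Real.sqrt_le_sqrt h3
  have h5' : 0 ≤ √ ℓ' := Real.sqrt_nonneg _
  have h5'' : 0 ≤ √ ℓ := Real.sqrt_nonneg _
  have hs : √ ℓ * √ ℓ = ℓ := Real.mul_self_sqrt hN0
  have hax := abs_nonneg x
  have hA1 : A * ℓ' ≤ A * ℓ := mul_le_mul_of_nonneg_left h3 hA
  have q1 : x * (c * √ ℓ') ≤ |x| * c * √ ℓ := by
    have q2 : x * (c * √ ℓ') ≤ |x| * (c * √ ℓ') := mul_le_mul_of_nonneg_right (le_abs_self x) (by positivity)
    have q3 : |x| * c * √ ℓ' ≤ |x| * c * √ ℓ := mul_le_mul_of_nonneg_left h5 (by positivity)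
    linarith
  have q4 : |x| * c * √ ℓ ≤ √ ℓ * (c' - A) * √ ℓ := mul_le_mul_of_nonneg_right h1 h5''
  have q6 : √ ℓ * (c' - A) * √ ℓ = c' * ℓ - A * ℓ := by
    calc √ ℓ * (c' - A) * √ ℓ = (√ ℓ * √ ℓ) * (c' - A) := by ring
      _ = ℓ * (c' - A) := by rw [hs]
      _ = _ := by ring
  linarith

/-- the level sets -/
def Lv (val : ℕ → ℕ → ℝ) (cls : ℕ → ℕ → Prop) (t : ℕ → ℝ) (n : ℕ) : Prop :=
  ∃ k : ℕ, H k n ∧ val k (odn k n) ≤ t n ∧ cls k (odn k n)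

/-- the same for integers -/
def LvZ (val : ℕ → ℕ → ℝ) (cls : ℕ → ℕ → Prop) (t : ℕ → ℝ) (z : ℤ) : Prop := 0 < z ∧ Lv val cls t z.toNat

/-- the law at every scale -/
theorem App_lawG {val : ℕ → ℕ → ℝ} {cls : ℕ → ℕ → Prop} {A c : ℝ} (hA : 0 ≤ A) (hc : 0 < c) {d : ℝ → ℝ}
    (hd : Continuous d) (hlaw : ∀ x : ℝ, Dn (Lv val cls (th A c x)) (d x)) (x : ℝ) :
    App (fun _ z => LvZ val cls (th A c x) z) (d x) := by
  apply App_of
  intro κ hκ
  obtain ⟨r, hr, hr'⟩ := Metric.continuousAt_iff.1 (hd.continuousAt (x := x)) (κ / 4) (by positivity)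
  set θ : ℝ := r / 4 with hθ
  have hθ0 : 0 < θ := by positivity
  have d1 := hr' (x := x + 2 * θ) (by rw [Real.dist_eq, add_sub_cancel_left, abs_of_pos (by positivity)]; linarith)
  have d2 := hr' (x := x - 2 * θ) (by
    rw [Real.dist_eq, sub_sub_cancel_left, abs_neg, abs_of_pos (by positivity)]; linarith)
  rw [Real.dist_eq, abs_lt] at d1 d2
  have hκ4 : 0 < κ / 4 := by positivity
  filter_upwards [th_cmp hA hc (show x - θ < x by linarith) hκ4, th_cmp hA hc (show x < x + θ by linarith) hκ4,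
    th_cmp hA hc (show x - 2 * θ < x - θ by linarith) hκ4, th_cmp hA hc (show x + θ < x + 2 * θ by linarith) hκ4,
    unif_of (hlaw x) (κ / 4) hκ4, unif_of (hlaw (x + 2 * θ)) (κ / 4) hκ4,
    unif_of (hlaw (x - 2 * θ)) (κ / 4) hκ4, eventually_ge_atTop 1] with N c1 c2 c3 c4 u1 u2 u3 hN1
  have hNr : (1 : ℝ) ≤ N := by exact_mod_cast hN1
  have hN0 : (0 : ℝ) ≤ N := by linarith
  set W : ℝ → ℤ → Prop := fun y z => LvZ val cls (th A c y) z with hW
  set R : ℕ → ℕ → Prop := fun k o => val k o ≤ th A c (x - θ) N ∧ cls k o with hR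
  set R' : ℕ → ℕ → Prop := fun k o => val k o ≤ th A c (x + θ) N ∧ cls k o with hR'
  set a := ⌊κ / 4 * (N : ℝ)⌋₊ with ha
  have ha1 : (a : ℝ) ≤ κ / 4 * N := Nat.floor_le (by positivity)
  have ha2 : ∀ z : ℤ, (a : ℤ) < z → κ / 4 * (N : ℝ) < (z.toNat : ℝ) := by
    intro z hz
    have h7 : κ / 4 * (N : ℝ) < a + 1 := Nat.lt_floor_add_one _
    have h8 : a + 1 ≤ z.toNat := by omega
    have h9 : ((a : ℝ) + 1) ≤ z.toNat := by exact_mod_cast h8
    linarith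
  -- the four inclusions
  have i1 : ∀ z ∈ Icc (1 : ℤ) N, Dat R z → W x z ∨ z ≤ a := by
    rintro z hz ⟨hz0, k, hk, ho, hob⟩
    rw [mem_Icc] at hz
    rcases lt_or_ge (a : ℤ) z with g | g
    · exact Or.inl ⟨hz0, k, hk, ho.trans (c1 z.toNat (ha2 z g) (by omega)).2, hob⟩
    · exact Or.inr g
  have i2 : ∀ z ∈ Icc (1 : ℤ) N, W x z → Dat R' z ∨ z ≤ a := by
    rintro z hz ⟨hz0, k, hk, ho, hob⟩
    rw [mem_Icc] at hz
    rcases lt_or_ge (a : ℤ) z with g | g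
    · exact Or.inl ⟨hz0, k, hk, ho.trans (c2 z.toNat (ha2 z g) (by omega)).1, hob⟩
    · exact Or.inr g
  have i3 : ∀ z ∈ Icc (1 : ℤ) N, W (x - 2 * θ) z → Dat R z ∨ z ≤ a := by
    rintro z hz ⟨hz0, k, hk, ho, hob⟩
    rw [mem_Icc] at hz
    rcases lt_or_ge (a : ℤ) z with g | g
    · exact Or.inl ⟨hz0, k, hk, ho.trans (c3 z.toNat (ha2 z g) (by omega)).1, hob⟩
    · exact Or.inr g
  have i4 : ∀ z ∈ Icc (1 : ℤ) N, Dat R' z → W (x + 2 * θ) z ∨ z ≤ a := by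
    rintro z hz ⟨hz0, k, hk, ho, hob⟩
    rw [mem_Icc] at hz
    rcases lt_or_ge (a : ℤ) z with g | g
    · exact Or.inl ⟨hz0, k, hk, ho.trans (c4 z.toNat (ha2 z g) (by omega)).2, hob⟩
    · exact Or.inr g
  refine ⟨R, R', ?_, ?_⟩
  · intro z hz hz'
    have hza : (a : ℤ) < z := by
      have : (a : ℝ) < z := by nlinarith
      exact_mod_cast this
    exact ⟨fun h => (i1 z hz h).resolve_right (by omega), fun h => (i2 z hz h).resolve_right (by omega)⟩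
  · intro m hm
    have hmN : (m : ℝ) ≤ N := by exact_mod_cast hm
    have hm0 : (0 : ℝ) ≤ m := Nat.cast_nonneg _
    have hsub : ∀ z ∈ Icc (1 : ℤ) m, z ∈ Icc (1 : ℤ) N := by
      intro z hz
      rw [mem_Icc] at hz ⊢; omega
    have s0 := cnt_small a m
    have k1 : cnt (Dat R) m ≤ cnt (W x) m + cnt (fun z : ℤ => z ≤ a) m := cnt_or' fun z hz h => i1 z (hsub z hz) h
    have k2 : cnt (W x) m ≤ cnt (Dat R') m + cnt (fun z : ℤ => z ≤ a) m := cnt_or' fun z hz h => i2 z (hsub z hz) h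
    have k3 : cnt (W (x - 2 * θ)) m ≤ cnt (Dat R) m + cnt (fun z : ℤ => z ≤ a) m :=
      cnt_or' fun z hz h => i3 z (hsub z hz) h
    have k4 : cnt (Dat R') m ≤ cnt (W (x + 2 * θ)) m + cnt (fun z : ℤ => z ≤ a) m :=
      cnt_or' fun z hz h => i4 z (hsub z hz) h
    have v1 := abs_le.1 (u1 m hm)
    have v2 := abs_le.1 (u2 m hm)
    have v3 := abs_le.1 (u3 m hm)
    have w1 : d (x + 2 * θ) * m ≤ d x * m + κ / 4 * N := by
      have : (d (x + 2 * θ) - d x) * m ≤ κ / 4 * m :=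
        mul_le_mul_of_nonneg_right (by linarith [d1.2]) hm0
      nlinarith
    have w2 : d x * m - κ / 4 * N ≤ d (x - 2 * θ) * m := by
      have : (d x - d (x - 2 * θ)) * m ≤ κ / 4 * m :=
        mul_le_mul_of_nonneg_right (by linarith [d2.1]) hm0
      nlinarith
    have e : ∀ y, cnt (W y) m = cnt (fun z : ℤ => 0 < z ∧ Lv val cls (th A c y) z.toNat) m := fun y => rfl
    rw [← e] at v1 v2 v3
    constructor
    · rw [abs_le]; constructor <;> linarith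
    · rw [abs_le]; constructor <;> linarith

/-- the law without classes -/
def LawG (val : ℕ → ℕ → ℝ) (A c δ : ℝ) : Prop := ∀ x : ℝ, Dn (Lv val (fun _ _ => True) (th A c x)) (δ * Phi x)

theorem low_unif {val : ℕ → ℕ → ℝ} {A c δ c' : ℝ} (hA : 0 ≤ A) (hc : 0 < c) (hfin : Dn (fun n => ∃ k, H k n) δ)
    (hlaw : LawG val A c δ) (h : c' < A) (κ : ℝ) (hκ : 0 < κ) : ∀ᶠ N : ℕ in atTop,
    ∀ m : ℕ, m ≤ N → |cnt (Dat (fun k o => c' * Real.log N < val k o)) m - δ * m| ≤ κ * N := by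
  have hκ4 : 0 < κ / 4 := by positivity
  obtain ⟨x, hx⟩ := Phi_bot (δ := δ) hκ4
  filter_upwards [th_low hA hc h hκ4 x, fin_unif hfin (κ / 4) hκ4, unif_of (hlaw x) (κ / 4) hκ4,
    eventually_ge_atTop 1] with N h1 h2 h3 hN1 m hm
  have hNr : (1 : ℝ) ≤ N := by exact_mod_cast hN1
  have hN0 : (0 : ℝ) ≤ N := by linarith
  have hmN : (m : ℝ) ≤ N := by exact_mod_cast hm
  have hm0 : (0 : ℝ) ≤ m := Nat.cast_nonneg _
  set a := ⌊κ / 4 * (N : ℝ)⌋₊ with ha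
  have ha1 : (a : ℝ) ≤ κ / 4 * N := Nat.floor_le (by positivity)
  have ha2 : ∀ z : ℤ, (a : ℤ) < z → κ / 4 * (N : ℝ) < (z.toNat : ℝ) := by
    intro z hz
    have h7 : κ / 4 * (N : ℝ) < a + 1 := Nat.lt_floor_add_one _
    have h8 : a + 1 ≤ z.toNat := by omega
    have h9 : ((a : ℝ) + 1) ≤ z.toNat := by exact_mod_cast h8
    linarith
  have g2 := abs_le.1 (h2 m hm)
  have g3 := abs_le.1 (h3 m hm)
  have s0 := cnt_small a m
  have k1 : cnt (Dat (fun k o => c' * Real.log N < val k o)) m ≤ cnt (Dat (fun _ _ => True)) m :=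
    cnt_mono' fun z _ ⟨hz, k, hk, _⟩ => ⟨hz, k, hk, trivial⟩
  have k2 : cnt (Dat (fun _ _ => True)) m ≤ cnt (Dat (fun k o => c' * Real.log N < val k o)) m +
      cnt (fun z : ℤ => (0 < z ∧ Lv val (fun _ _ => True) (th A c x) z.toNat) ∨ z ≤ a) m := by
    refine cnt_or' fun z hz hd => ?_
    obtain ⟨hz0, k, hk, _⟩ := hd
    rw [mem_Icc] at hz
    by_cases ho : c' * Real.log N < val k (odn k z.toNat)
    · exact Or.inl ⟨hz0, k, hk, ho⟩
    · refine Or.inr ?_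
      rcases lt_or_ge (a : ℤ) z with g | g
      · push Not at ho
        exact Or.inl ⟨hz0, k, hk, ho.trans (h1 z.toNat (ha2 z g) (by omega)), trivial⟩
      · exact Or.inr g
  have k3 : cnt (fun z : ℤ => (0 < z ∧ Lv val (fun _ _ => True) (th A c x) z.toNat) ∨ z ≤ a) m ≤
      cnt (fun z : ℤ => 0 < z ∧ Lv val (fun _ _ => True) (th A c x) z.toNat) m +
      cnt (fun z : ℤ => z ≤ a) m := cnt_or' fun z _ h => h
  have w1 : δ * Phi x * m ≤ κ / 4 * N := by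
    have : δ * Phi x * m ≤ κ / 4 * m := mul_le_mul_of_nonneg_right hx hm0
    nlinarith
  rw [abs_le]
  constructor <;> linarith [g2.1, g2.2, g3.1, g3.2]

theorem App_lowG {val : ℕ → ℕ → ℝ} {A c δ c' : ℝ} (hA : 0 ≤ A) (hc : 0 < c) (hfin : Dn (fun n => ∃ k, H k n) δ)
    (hlaw : LawG val A c δ) (h : c' < A) : App (fun N => Dat (fun k o => c' * Real.log N < val k o)) δ :=
  App_dat (R := fun N k o => c' * Real.log N < val k o) (low_unif hA hc hfin hlaw h)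

theorem upp_unif {val : ℕ → ℕ → ℝ} {A c δ c' : ℝ} (hA : 0 ≤ A) (hc : 0 < c) (hfin : Dn (fun n => ∃ k, H k n) δ)
    (hlaw : LawG val A c δ) (h : A < c') (κ : ℝ) (hκ : 0 < κ) : ∀ᶠ N : ℕ in atTop,
    ∀ m : ℕ, m ≤ N → |cnt (Dat (fun k o => val k o ≤ c' * Real.log N)) m - δ * m| ≤ κ * N := by
  have hκ4 : 0 < κ / 4 := by positivity
  obtain ⟨x, hx⟩ := Phi_top (δ := δ) hκ4
  filter_upwards [th_upp hA hc h x, fin_unif hfin (κ / 4) hκ4, unif_of (hlaw x) (κ / 4) hκ4,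
    eventually_ge_atTop 1] with N h1 h2 h3 hN1 m hm
  have hNr : (1 : ℝ) ≤ N := by exact_mod_cast hN1
  have hN0 : (0 : ℝ) ≤ N := by linarith
  have hmN : (m : ℝ) ≤ N := by exact_mod_cast hm
  have hm0 : (0 : ℝ) ≤ m := Nat.cast_nonneg _
  have g2 := abs_le.1 (h2 m hm)
  have g3 := abs_le.1 (h3 m hm)
  have k1 : cnt (Dat (fun k o => val k o ≤ c' * Real.log N)) m ≤ cnt (Dat (fun _ _ => True)) m :=
    cnt_mono' fun z _ ⟨hz, k, hk, _⟩ => ⟨hz, k, hk, trivial⟩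
  have k2 : cnt (fun z : ℤ => 0 < z ∧ Lv val (fun _ _ => True) (th A c x) z.toNat) m ≤
      cnt (Dat (fun k o => val k o ≤ c' * Real.log N)) m := by
    refine cnt_mono' fun z hz hd => ?_
    obtain ⟨hz0, k, hk, ho, _⟩ := hd
    rw [mem_Icc] at hz
    exact ⟨hz0, k, hk, ho.trans (h1 z.toNat (by omega))⟩
  have w1 : δ * m - κ / 4 * N ≤ δ * Phi x * m := by
    have : (δ - κ / 4) * m ≤ δ * Phi x * m := mul_le_mul_of_nonneg_right hx hm0
    nlinarith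
  rw [abs_le]
  constructor <;> linarith [g2.1, g2.2, g3.1, g3.2]

theorem App_uppG {val : ℕ → ℕ → ℝ} {A c δ c' : ℝ} (hA : 0 ≤ A) (hc : 0 < c) (hfin : Dn (fun n => ∃ k, H k n) δ)
    (hlaw : LawG val A c δ) (h : A < c') : App (fun N => Dat (fun k o => val k o ≤ c' * Real.log N)) δ :=
  App_dat (R := fun N k o => val k o ≤ c' * Real.log N) (upp_unif hA hc hfin hlaw h)

end Pool.Agent.TH465.PP
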