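import Mathlib
import Pool.Agent.TH465.PP.Law

/-! Truncated functions. -/

set_option autoImplicit false

namespace Pool.Agent.TH465.PP
open Pool.Agent.H499R2.HL (H)
open Pool.Agent.H499R2.LT (odn)

/-- `f t n` is the value of `val` for `n`, truncated at `t` -/
def IsTrG (val : ℕ → ℕ → ℝ) (f : ℝ → ℕ → ℝ) : Prop := (∀ t n k, H k n → f t n = min (val k (odn k n)) t) ∧
  ∀ t n, (¬ ∃ k, H k n) → f t n = t

lemma IsTrG.nn {val : ℕ → ℕ → ℝ} (hv : ∀ k o, 0 ≤ val k o) {f : ℝ → ℕ → ℝ} (hf : IsTrG val f) {t : ℝ}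
    (ht : 0 ≤ t) (n : ℕ) : 0 ≤ f t n ∧ f t n ≤ t := by
  by_cases h : ∃ k, H k n
  · obtain ⟨k, hk⟩ := h
    rw [hf.1 t n k hk]
    exact ⟨le_min (hv _ _) ht, min_le_right _ _⟩
  · rw [hf.2 t n h]
    exact ⟨ht, le_rfl⟩

end Pool.Agent.TH465.PP
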