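import Mathlib
import Pool.Agent.TH465.PP.AppF
import Pool.Agent.TH465.PP.TrG

/-! The total stopping time along linear forms in two primes. -/

set_option autoImplicit false

namespace Pool.Agent.TH465.PP
open Finset Filter Topology Pool.Agent.TH204.CP Pool.Agent.TH465.HP
open Pool.Agent.W41.FU (EE)
open Pool.Agent.H499R2.HL (H)
open Pool.Agent.H499R2.LT (odn)
open Pool.Agent.H499R2.ND (Tn Dn Phi Phi_continuous phi_cdf)

/-! ### Fourier coefficients -/

theorem fou_near {W : ℕ → ℤ → Prop} {δ : ℝ} (h : ∀ κ : ℝ, 0 < κ → ∃ (V : ℕ → ℤ → Prop) (δ' : ℝ), Fou V δ' ∧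
    |δ - δ'| ≤ κ ∧ ∀ᶠ N : ℕ in atTop, ((∀ x ∈ Icc (1 : ℤ) N, V N x → W N x) ∨
      (∀ x ∈ Icc (1 : ℤ) N, W N x → V N x)) ∧ |cnt (W N) N - cnt (V N) N| ≤ κ * N) : Fou W δ := by
  intro ε hε
  obtain ⟨V, δ', h1, h2, h3⟩ := h (ε / 4) (by positivity)
  filter_upwards [h1 (ε / 4) (by positivity), h3] with N g1 g3 α
  have hN : (0 : ℝ) ≤ N := Nat.cast_nonneg _
  refine (EE_near (δ' := δ') α g3.1 g3.2).trans ?_
  have := g1 α
  nlinarith

section gen

variable {val : ℕ → ℕ → ℝ} {A c δ : ℝ}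

/-- the level sets of `val` -/
abbrev LG (val : ℕ → ℕ → ℝ) (A c : ℝ) (y : ℝ) : ℤ → Prop := LvZ val (fun _ _ => True) (th A c y)

theorem fou_fin (hA : 0 ≤ A) (hc : 0 < c) (hδ0 : 0 ≤ δ) (hfin : Dn (fun n => ∃ k, H k n) δ)
    (hlaw : LawG val A c δ) (hF : ∀ y, Fou (fun _ => LG val A c y) (δ * Phi y)) :
    Fou (fun _ => Dat (fun _ _ => True)) δ := by
  apply fou_near
  intro κ hκ
  obtain ⟨y, hy⟩ := Phi_top (δ := δ) (show 0 < κ / 3 by positivity)
  have hP1 : δ * Phi y ≤ δ := by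
    have h1 : Phi y ≤ 1 := by
      unfold Pool.Agent.H499R2.ND.Phi
      exact MeasureTheory.measureReal_le_one
    nlinarith
  refine ⟨fun _ => LG val A c y, δ * Phi y, hF y, ?_, ?_⟩
  · rw [abs_le]; constructor <;> linarith
  · filter_upwards [fin_unif hfin (κ / 3) (by positivity), unif_of (hlaw y) (κ / 3) (by positivity)] with N h1 h2
    have hN : (0 : ℝ) ≤ N := Nat.cast_nonneg _
    refine ⟨Or.inl ?_, ?_⟩
    · rintro x _ ⟨h3, k, hk, _, _⟩
      exact ⟨h3, k, hk, trivial⟩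
    · have g1 := abs_le.1 (h1 N le_rfl)
      have g2 := abs_le.1 (h2 N le_rfl)
      have e : cnt (LG val A c y) N = cnt (fun z : ℤ => 0 < z ∧ Lv val (fun _ _ => True) (th A c y) z.toNat) N := rfl
      rw [e, abs_le]
      constructor <;> nlinarith [g1.1, g1.2, g2.1, g2.2]

theorem fou_low (hA : 0 ≤ A) (hc : 0 < c) (hδ0 : 0 ≤ δ) (hfin : Dn (fun n => ∃ k, H k n) δ)
    (hlaw : LawG val A c δ) (hF : ∀ y, Fou (fun _ => LG val A c y) (δ * Phi y)) {c' : ℝ} (h : c' < A) :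
    Fou (fun N => Dat (fun k o => c' * Real.log N < val k o)) δ := by
  apply fou_near
  intro κ hκ
  refine ⟨fun _ => Dat (fun _ _ => True), δ, fou_fin hA hc hδ0 hfin hlaw hF, ?_, ?_⟩
  · rw [sub_self, abs_zero]; exact hκ.le
  · filter_upwards [fin_unif hfin (κ / 2) (by positivity), low_unif hA hc hfin hlaw h (κ / 2) (by positivity)]
      with N h1 h2
    have hN : (0 : ℝ) ≤ N := Nat.cast_nonneg _
    refine ⟨Or.inr ?_, ?_⟩
    · rintro x _ ⟨h3, k, hk, _⟩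
      exact ⟨h3, k, hk, trivial⟩
    · have g1 := abs_le.1 (h1 N le_rfl)
      have g2 := abs_le.1 (h2 N le_rfl)
      rw [abs_le]
      constructor <;> linarith [g1.1, g1.2, g2.1, g2.2]

theorem fou_upp (hA : 0 ≤ A) (hc : 0 < c) (hδ0 : 0 ≤ δ) (hfin : Dn (fun n => ∃ k, H k n) δ)
    (hlaw : LawG val A c δ) (hF : ∀ y, Fou (fun _ => LG val A c y) (δ * Phi y)) {c' : ℝ} (h : A < c') :
    Fou (fun N => Dat (fun k o => val k o ≤ c' * Real.log N)) δ := by
  apply fou_near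
  intro κ hκ
  refine ⟨fun _ => Dat (fun _ _ => True), δ, fou_fin hA hc hδ0 hfin hlaw hF, ?_, ?_⟩
  · rw [sub_self, abs_zero]; exact hκ.le
  · filter_upwards [fin_unif hfin (κ / 2) (by positivity), upp_unif hA hc hfin hlaw h (κ / 2) (by positivity)]
      with N h1 h2
    have hN : (0 : ℝ) ≤ N := Nat.cast_nonneg _
    refine ⟨Or.inr ?_, ?_⟩
    · rintro x _ ⟨h3, k, hk, _⟩
      exact ⟨h3, k, hk, trivial⟩
    · have g1 := abs_le.1 (h1 N le_rfl)
      have g2 := abs_le.1 (h2 N le_rfl)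
      rw [abs_le]
      constructor <;> linarith [g1.1, g1.2, g2.1, g2.2]

end gen

/-! ### Counts over pairs of primes -/

/-- the pairs with a positive value of the form -/
def PF (a b c : ℤ) (B B' : Finset ℕ) : Finset (ℕ × ℕ) :=
  (B ×ˢ B').filter (fun z => 0 < a * (z.1 : ℤ) + b * z.2 + c)

open Classical in
lemma pairs_count (P : ℤ → Prop) (δ : ℝ) (a b c : ℤ) (B B' : Finset ℕ) :
    ∑ p ∈ B.map (Nat.castEmbedding : ℕ ↪ ℤ), ∑ q ∈ B'.map (Nat.castEmbedding : ℕ ↪ ℤ),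
      Fs 1 (fun x => ind P x - δ) (a * p + (b * q + c)) =
      (((PF a b c B B').filter (fun z => P (a * (z.1 : ℤ) + b * z.2 + c))).card : ℝ) - δ * (PF a b c B B').card := by
  have e1 : ∑ p ∈ B.map (Nat.castEmbedding : ℕ ↪ ℤ), ∑ q ∈ B'.map (Nat.castEmbedding : ℕ ↪ ℤ),
      Fs 1 (fun x => ind P x - δ) (a * p + (b * q + c)) =
      ∑ z ∈ B ×ˢ B', Fs 1 (fun x => ind P x - δ) (a * (z.1 : ℤ) + b * z.2 + c) := by
    rw [sum_map, sum_product]
    apply sum_congr rfl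
    intro p _
    rw [sum_map]
    apply sum_congr rfl
    intro q _
    simp only [Nat.castEmbedding_apply]
    rw [add_assoc]
  have e2 : ∀ z : ℕ × ℕ, Fs 1 (fun x => ind P x - δ) (a * (z.1 : ℤ) + b * z.2 + c) =
      if 0 < a * (z.1 : ℤ) + b * z.2 + c then (ind P (a * (z.1 : ℤ) + b * z.2 + c) - δ) else 0 := by
    intro z
    unfold Fs
    simp only [one_mul]
    by_cases h : 0 < a * (z.1 : ℤ) + b * z.2 + c
    · rw [if_pos h, if_pos (by omega)]
    · rw [if_neg h, if_neg (by omega)]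
  rw [e1, sum_congr rfl (fun z _ => e2 z), ← sum_filter]
  change ∑ z ∈ PF a b c B B', (ind P (a * (z.1 : ℤ) + b * z.2 + c) - δ) = _
  rw [sum_sub_distrib, sum_const, nsmul_eq_mul]
  have e3 : ∑ z ∈ PF a b c B B', ind P (a * (z.1 : ℤ) + b * z.2 + c) =
      (((PF a b c B B').filter (fun z => P (a * (z.1 : ℤ) + b * z.2 + c))).card : ℝ) := by
    unfold ind
    rw [Finset.sum_boole]
  rw [e3]; ring

lemma map_sub {B : Finset ℕ} {N : ℕ} (h : ∀ p ∈ B, p.Prime ∧ p ≤ N) :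
    B.map (Nat.castEmbedding : ℕ ↪ ℤ) ⊆ Icc (1 : ℤ) N ∧ ∀ p ∈ B.map (Nat.castEmbedding : ℕ ↪ ℤ), p.toNat.Prime := by
  constructor
  · intro p hp
    rw [Finset.mem_map] at hp
    obtain ⟨q, hq, rfl⟩ := hp
    obtain ⟨h1, h2⟩ := h q hq
    have := h1.one_lt
    rw [Nat.castEmbedding_apply, mem_Icc]
    omega
  · intro p hp
    rw [Finset.mem_map] at hp
    obtain ⟨q, hq, rfl⟩ := hp
    rw [Nat.castEmbedding_apply, Int.toNat_natCast]
    exact (h q hq).1

open Classical in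
/-- LINEAR FORMS IN TWO PRIMES, counting form -/
theorem pairs_law {W : ℕ → ℤ → Prop} {δ : ℝ} (h0 : 0 ≤ δ) (h1 : δ ≤ 1) (hW : App W δ) (hF : Fou W δ)
    {a b : ℤ} (ha : a ≠ 0) (hb : b ≠ 0) (ε : ℝ) (hε : 0 < ε) :
    ∀ᶠ N : ℕ in atTop, ∀ B B' : Finset ℕ, (∀ p ∈ B, p.Prime ∧ p ≤ N) → (∀ p ∈ B', p.Prime ∧ p ≤ N) →
      ∀ c : ℤ, |c| ≤ N →
      |(((PF a b c B B').filter (fun z => W (ww a b * N) (a * (z.1 : ℤ) + b * z.2 + c))).card : ℝ) * Real.log N ^ 2 -
        δ * ((PF a b c B B').card * Real.log N ^ 2)| ≤ ε * N ^ 2 := by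
  filter_upwards [App_pairs h0 h1 hW hF ha hb ε hε] with N h B B' hB hB' c hc
  obtain ⟨g1, g2⟩ := map_sub hB
  obtain ⟨g1', g2'⟩ := map_sub hB'
  have h3 := h _ _ g1 g1' g2 g2' c hc
  rw [pairs_count] at h3
  have e : (((PF a b c B B').filter (fun z => W (ww a b * N) (a * (z.1 : ℤ) + b * z.2 + c))).card : ℝ) * Real.log N ^ 2 -
        δ * ((PF a b c B B').card * Real.log N ^ 2) =
      ((((PF a b c B B').filter (fun z => W (ww a b * N) (a * (z.1 : ℤ) + b * z.2 + c))).card : ℝ) -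
        δ * (PF a b c B B').card) * Real.log N ^ 2 := by ring
  rw [e, abs_mul, abs_of_nonneg (by positivity : 0 ≤ Real.log (N : ℝ) ^ 2)]
  exact h3

/-! ### Averages -/

lemma avg_bound2 {c Λ δ ε : ℝ} (hc : 0 < c) (hΛ : c < Λ) (hδ0 : 0 ≤ δ) (hδ1 : δ ≤ 1) (hε : 0 < ε) :
    ∃ κ : ℝ, 0 < κ ∧ κ < c ∧ ∀ L V F M T0 T1 T2 S : ℝ, 0 ≤ L → 0 ≤ V → 0 ≤ F → F * V ≤ M →
      |T0 * V - δ * (F * V)| ≤ κ * M → |T1 * V - δ * (F * V)| ≤ κ * M → |T2 * V - δ * (F * V)| ≤ κ * M →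
      S ≤ Λ * L * (F - T2) + (c + κ) * ((1 + κ) * L) * T2 →
      Λ * L * (F - T0) + (c - κ) * L * T1 ≤ S →
      |S * V - (δ * c + (1 - δ) * Λ) * (F * V) * L| ≤ ε * M * L := by
  have hΛ0 : 0 < Λ := hc.trans hΛ
  set κ : ℝ := min (c / 2) (min 1 (ε / (Λ + 3 * c + 4))) with hκ
  have hκ0 : 0 < κ := lt_min (by positivity) (lt_min one_pos (by positivity))
  have hκc : κ ≤ c / 2 := min_le_left _ _
  have hκ1 : κ ≤ 1 := (min_le_right _ _).trans (min_le_left _ _)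
  have hκε : κ * (Λ + 3 * c + 4) ≤ ε := by
    have h1 : κ ≤ ε / (Λ + 3 * c + 4) := (min_le_right _ _).trans (min_le_right _ _)
    rwa [le_div_iff₀ (by positivity)] at h1
  refine ⟨κ, hκ0, by linarith, ?_⟩
  intro L V F M T0 T1 T2 S hL hV hF hFM hT0 hT1 hT2 hS1 hS2
  have hG : 0 ≤ F * V := mul_nonneg hF hV
  set G := F * V with hGd
  have hM : 0 ≤ M := hG.trans hFM
  rw [abs_le] at hT0 hT1 hT2
  have hU := mul_le_mul_of_nonneg_right hS1 hV
  have hLo := mul_le_mul_of_nonneg_right hS2 hV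
  have hΛL : 0 ≤ Λ * L := by positivity
  have hck : 0 ≤ c - κ := by linarith
  have hML : 0 ≤ L * M := by positivity
  rw [abs_le]
  constructor
  · have b1 : Λ * L * (G - T0 * V) ≥ Λ * L * ((1 - δ) * G - κ * M) :=
      mul_le_mul_of_nonneg_left (by linarith [hT0.2]) hΛL
    have b2 : (c - κ) * L * (T1 * V) ≥ (c - κ) * L * (δ * G - κ * M) :=
      mul_le_mul_of_nonneg_left (by linarith [hT1.1]) (by positivity)
    have b4 : (Λ * L * (F - T0) + (c - κ) * L * T1) * V =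
        Λ * L * (G - T0 * V) + (c - κ) * L * (T1 * V) := by rw [hGd]; ring
    rw [b4] at hLo
    have b5 : Λ * L * ((1 - δ) * G - κ * M) + (c - κ) * L * (δ * G - κ * M) = (δ * c + (1 - δ) * Λ) * G * L -
          κ * (L * (δ * G)) - κ * ((L * M) * (Λ + (c - κ))) := by ring
    have b6 : L * (δ * G) ≤ L * M := by
      apply mul_le_mul_of_nonneg_left _ hL
      nlinarith
    have b7 : κ * (L * (δ * G)) ≤ κ * (L * M) := mul_le_mul_of_nonneg_left b6 hκ0.le
    have b8 : κ * (L * M) + κ * ((L * M) * (Λ + (c - κ))) ≤ ε * M * L := by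
      have b9 : κ * (L * M) + κ * ((L * M) * (Λ + (c - κ))) = (L * M) * (κ * (1 + Λ + (c - κ))) := by ring
      rw [b9]
      calc (L * M) * (κ * (1 + Λ + (c - κ))) ≤ (L * M) * ε := by
            apply mul_le_mul_of_nonneg_left _ hML
            refine le_trans ?_ hκε
            apply mul_le_mul_of_nonneg_left _ hκ0.le
            linarith
        _ = _ := by ring
    linarith
  · have b1 : Λ * L * (G - T2 * V) ≤ Λ * L * ((1 - δ) * G + κ * M) :=
      mul_le_mul_of_nonneg_left (by linarith [hT2.1]) hΛL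
    have b2 : (c + κ) * ((1 + κ) * L) * (T2 * V) ≤ (c + κ) * ((1 + κ) * L) * (δ * G + κ * M) :=
      mul_le_mul_of_nonneg_left (by linarith [hT2.2]) (by positivity)
    have b4 : (Λ * L * (F - T2) + (c + κ) * ((1 + κ) * L) * T2) * V =
        Λ * L * (G - T2 * V) + (c + κ) * ((1 + κ) * L) * (T2 * V) := by rw [hGd]; ring
    rw [b4] at hU
    have b5 : Λ * L * ((1 - δ) * G + κ * M) + (c + κ) * ((1 + κ) * L) * (δ * G + κ * M) =
        (δ * c + (1 - δ) * Λ) * G * L + κ * ((c + 1 + κ) * (L * (δ * G))) +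
          κ * ((L * M) * (Λ + (c + κ) * (1 + κ))) := by ring
    have b6 : L * (δ * G) ≤ L * M := by
      apply mul_le_mul_of_nonneg_left _ hL
      nlinarith
    have b7 : κ * ((c + 1 + κ) * (L * (δ * G))) ≤ κ * ((c + 1 + κ) * (L * M)) := by
      apply mul_le_mul_of_nonneg_left _ hκ0.le
      exact mul_le_mul_of_nonneg_left b6 (by linarith)
    have b8 : κ * ((c + 1 + κ) * (L * M)) + κ * ((L * M) * (Λ + (c + κ) * (1 + κ))) ≤ ε * M * L := by
      have b9 : κ * ((c + 1 + κ) * (L * M)) + κ * ((L * M) * (Λ + (c + κ) * (1 + κ))) =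
          (L * M) * (κ * ((c + 1 + κ) + Λ + (c + κ) * (1 + κ))) := by ring
      rw [b9]
      calc (L * M) * (κ * ((c + 1 + κ) + Λ + (c + κ) * (1 + κ))) ≤ (L * M) * ε := by
            apply mul_le_mul_of_nonneg_left _ hML
            refine le_trans ?_ hκε
            apply mul_le_mul_of_nonneg_left _ hκ0.le
            have : (c + κ) * (1 + κ) ≤ (c + κ) * 2 := mul_le_mul_of_nonneg_left (by linarith) (by linarith)
            nlinarith
        _ = _ := by ring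
    linarith

open Classical in
theorem avg_pairs {val : ℕ → ℕ → ℝ} (hv : ∀ k o, 0 ≤ val k o) {A c' δ : ℝ} (hA : 0 < A) (hc' : 0 < c')
    (hδ0 : 0 ≤ δ) (hδ1 : δ ≤ 1) (hfin : Dn (fun n => ∃ k, H k n) δ) (hlaw : LawG val A c' δ)
    (hF : ∀ y, Fou (fun _ => LG val A c' y) (δ * Phi y)) {f : ℝ → ℕ → ℝ} (hf : IsTrG val f)
    {a b : ℤ} (ha : a ≠ 0) (hb : b ≠ 0) {Λ : ℝ} (hΛ : A < Λ) (ε : ℝ) (hε : 0 < ε) :
    ∀ᶠ N : ℕ in atTop, ∀ B B' : Finset ℕ, (∀ p ∈ B, p.Prime ∧ p ≤ N) → (∀ p ∈ B', p.Prime ∧ p ≤ N) →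
      ∀ c : ℤ, |c| ≤ N →
      |(∑ z ∈ PF a b c B B', f (Λ * Real.log N) (a * (z.1 : ℤ) + b * z.2 + c).toNat) * Real.log N ^ 2 -
        (δ * A + (1 - δ) * Λ) * ((PF a b c B B').card * Real.log N ^ 2) * Real.log N| ≤
          ε * N ^ 2 * Real.log N := by
  obtain ⟨κ, hκ0, hκc, hκ⟩ := avg_bound2 hA hΛ hδ0 hδ1 (show 0 < ε / 4 by positivity)
  have a0 := App_fin hfin
  have a1 := App_lowG hA.le hc' hfin hlaw (show A - κ < A by linarith)
  have a2 := App_uppG hA.le hc' hfin hlaw (show A < A + κ by linarith)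
  have f0 := fou_fin hA.le hc' hδ0 hfin hlaw hF
  have f1 := fou_low hA.le hc' hδ0 hfin hlaw hF (show A - κ < A by linarith)
  have f2 := fou_upp hA.le hc' hδ0 hfin hlaw hF (show A < A + κ by linarith)
  have hκ4 : 0 < κ * 4 := by positivity
  have hw1 : 1 ≤ ww a b := ww_pos a b
  have hwr : (1 : ℝ) ≤ ww a b := by exact_mod_cast hw1
  filter_upwards [pairs_law hδ0 hδ1 a0 f0 ha hb _ hκ4, pairs_law hδ0 hδ1 a1 f1 ha hb _ hκ4,
    pairs_law hδ0 hδ1 a2 f2 ha hb _ hκ4, pi_unif 1 one_pos,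
    tlog.eventually_ge_atTop (Real.log (ww a b) / κ), tlog.eventually_ge_atTop 1, eventually_ge_atTop 1]
    with N g0 g1 g2 hpi h3 h4 h5 B B' hB hB' c hc
  have hNr : (1 : ℝ) ≤ N := by exact_mod_cast h5
  have e0 := g0 B B' hB hB' c hc
  have e1 := g1 B B' hB hB' c hc
  have e2 := g2 B B' hB hB' c hc
  have elog : Real.log ((ww a b * N : ℕ) : ℝ) = Real.log (ww a b) + Real.log N := by
    push_cast
    rw [Real.log_mul (by linarith) (by linarith)]
  have hlw : 0 ≤ Real.log (ww a b : ℝ) := Real.log_nonneg hwr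
  rw [div_le_iff₀ hκ0] at h3
  set L := Real.log (N : ℝ) with hL
  have hL0 : 0 ≤ L := by linarith
  set L' := Real.log ((ww a b * N : ℕ) : ℝ) with hL'
  have hLL : L ≤ L' := by rw [elog]; linarith
  have hLL' : L' ≤ (1 + κ) * L := by rw [elog]; linarith
  set P := PF a b c B B' with hP
  -- cardinality
  have hcard : ∀ D : Finset ℕ, (∀ p ∈ D, p.Prime ∧ p ≤ N) → (D.card : ℝ) * L ≤ 2 * N := by
    intro D hD
    obtain ⟨i1, i2⟩ := map_sub hD
    have h7 : (D.card : ℝ) ≤ Nat.primeCounting N := by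
      have := card_primes i1 i2
      rw [card_map] at this
      exact_mod_cast this
    have h8 := (abs_le.1 (hpi N (by omega))).2
    have h9 := mul_le_mul_of_nonneg_right h7 hL0
    linarith
  have hPM : (P.card : ℝ) * L ^ 2 ≤ 4 * N ^ 2 := by
    have h7 : (P.card : ℝ) ≤ B.card * B'.card := by
      have : P.card ≤ B.card * B'.card := by
        rw [← card_product]
        exact card_le_card (filter_subset _ _)
      exact_mod_cast this
    have hb1 := hcard B hB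
    have hb2 := hcard B' hB'
    have hb0 : 0 ≤ (B.card : ℝ) * L := by positivity
    have hb0' : 0 ≤ (B'.card : ℝ) * L := by positivity
    calc (P.card : ℝ) * L ^ 2 ≤ (B.card * B'.card) * L ^ 2 := mul_le_mul_of_nonneg_right h7 (by positivity)
      _ = (B.card * L) * (B'.card * L) := by ring
      _ ≤ (2 * N) * (2 * N) := mul_le_mul hb1 hb2 hb0' (by positivity)
      _ = _ := by ring
  have ht : 0 ≤ Λ * L := by
    have : 0 < Λ := hA.trans hΛ
    positivity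
  have hAκ : 0 < A - κ := by linarith
  have hb := trunc_bounds P P ∅ (Subset.refl _) (fun z hz _ => hz)
    (fun z => f (Λ * L) (a * (z.1 : ℤ) + b * z.2 + c).toNat)
    (fun z => Dat (fun _ _ => True) (a * (z.1 : ℤ) + b * z.2 + c))
    (fun z => Dat (fun k o => (A - κ) * L' < val k o) (a * (z.1 : ℤ) + b * z.2 + c))
    (fun z => Dat (fun k o => val k o ≤ (A + κ) * L') (a * (z.1 : ℤ) + b * z.2 + c)) ht
    (a1 := (A - κ) * L) (a2 := (A + κ) * ((1 + κ) * L)) (by positivity) (by positivity)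
    (fun z _ => (hf.nn hv ht _).1) (fun z _ => (hf.nn hv ht _).2) ?_ ?_ ?_ ?_
  · obtain ⟨b1, b2⟩ := hb
    simp only [card_empty, Nat.cast_zero, zero_mul, add_zero, sub_zero] at b1 b2
    have key := hκ L (L ^ 2) (P.card : ℝ) (4 * (N : ℝ) ^ 2) _ _ _ _ hL0 (by positivity) (Nat.cast_nonneg _) hPM
      (by refine e0.trans (le_of_eq ?_); ring) (by refine e1.trans (le_of_eq ?_); ring)
      (by refine e2.trans (le_of_eq ?_); ring) b1 b2
    refine key.trans (le_of_eq ?_)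
    ring
  · intro z hz _ hn
    apply hf.2
    rintro ⟨k, hk⟩
    have hpos := (mem_filter.1 hz).2
    exact hn ⟨hpos, k, hk, trivial⟩
  · rintro z ⟨hz, k, hk, _⟩
    exact ⟨hz, k, hk, trivial⟩
  · rintro z hz _ ⟨_, k, hk, ho⟩
    rw [hf.1 _ _ k hk]
    refine le_min ?_ ?_
    · have := mul_le_mul_of_nonneg_left hLL hAκ.le
      linarith
    · exact mul_le_mul_of_nonneg_right (by linarith) hL0
  · rintro z hz _ ⟨_, k, hk, ho⟩
    rw [hf.1 _ _ k hk]
    refine (min_le_left _ _).trans (ho.trans ?_)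
    exact mul_le_mul_of_nonneg_left hLL' (by linarith)

end Pool.Agent.TH465.PP
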