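import Mathlib
import Pool.Agent.TH465.PP.Tot

/-! The level sets of the total stopping time. -/

set_option autoImplicit false

namespace Pool.Agent.TH465.PP
open Finset Filter Topology Pool.Agent.TH204.CP Pool.Agent.TH465.HP
open Pool.Agent.H499R2.HL (H)
open Pool.Agent.H499R2.LT (odn Dn_iff)
open Pool.Agent.H499R2.ND (Tn Dn Phi Phi_continuous phi_cdf)
open Pool.Agent.W36.JL (EB TS SX bd bd_eq sdv_eq fou_all lawE lpos gpos)

/-- the coefficient of the mean -/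
noncomputable def A0 : ℝ := 2 / Real.log (4 / 3)

/-- the coefficient of the standard deviation -/
noncomputable def c0 : ℝ := Real.log 3 * √ (2 / Real.log (4 / 3) ^ 3)

lemma A0_pos : 0 < A0 := by
  unfold A0
  exact div_pos two_pos lpos

lemma c0_pos : 0 < c0 := gpos

lemma bd_th (x : ℝ) (n : ℕ) : bd x n = th A0 c0 x n := by
  rw [bd_eq, sdv_eq]
  rfl

/-- the total stopping time -/
def valK (k _ : ℕ) : ℝ := k

/-- its residue class -/
def clsK (m : ℕ) (r : ℤ) (k _ : ℕ) : Prop := (k : ℤ) ≡ r [ZMOD m]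

lemma lv_iff (m : ℕ) (r : ℤ) (x : ℝ) (n : ℕ) : Lv valK (clsK m r) (th A0 c0 x) n ↔ EB m r (bd x n) n := by
  unfold Lv EB
  rw [bd_th]
  exact exists_congr fun k => ⟨fun ⟨h1, h2, h3⟩ => ⟨h2, h1, h3⟩, fun ⟨h1, h2, h3⟩ => ⟨h2, h1, h3⟩⟩

lemma Phi01 (x : ℝ) : 0 ≤ Phi x ∧ Phi x ≤ 1 := by
  unfold Pool.Agent.H499R2.ND.Phi
  exact ⟨MeasureTheory.measureReal_nonneg, MeasureTheory.measureReal_le_one⟩

lemma dmem {δ : ℝ} (h0 : 0 < δ) (h1 : δ ≤ 1) {m : ℕ} (hm : 1 ≤ m) (x : ℝ) :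
    0 ≤ δ * Phi x / m ∧ δ * Phi x / m ≤ 1 := by
  obtain ⟨h2, h3⟩ := Phi01 x
  have hm1 : (1 : ℝ) ≤ m := by exact_mod_cast hm
  constructor
  · positivity
  · rw [div_le_one (by linarith)]
    nlinarith

/-- the hypotheses on the density -/
structure DenK (δ : ℝ) : Prop where
  pos : 0 < δ
  le_one : δ ≤ 1
  fin : Dn (fun n => ∃ k, H k n) δ
  law : ∀ (m : ℕ) (r : ℤ), 1 ≤ m → ∀ x : ℝ, Dn (fun n => EB m r (bd x n) n) (δ * Phi x / m)

theorem fou_level {δ : ℝ} (h : DenK δ) {m : ℕ} (hm : 1 ≤ m) (r : ℤ) (x : ℝ) :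
    Fou (fun _ => LvZ valK (clsK m r) (th A0 c0 x)) (δ * Phi x / m) := by
  intro ε hε
  obtain ⟨d1, d2⟩ := dmem h.pos h.le_one hm x
  obtain ⟨N0, _, h1⟩ := fou_all (h.law m r hm) x d1 d2 (lt_min hε one_pos) (min_le_right ε 1)
  filter_upwards [eventually_ge_atTop N0] with N hN α
  have e : (fun z => ind (LvZ valK (clsK m r) (th A0 c0 x)) z - δ * Phi x / m) =
      Pool.Agent.W41.FU.bal 1 (SX m r x) (δ * Phi x / m) := by
    funext z
    unfold Pool.Agent.W41.FU.bal Pool.Agent.W41.ind Pool.Agent.TH204.CP.ind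
    have h2 : LvZ valK (clsK m r) (th A0 c0 x) z ↔ 1 * z ∈ SX m r x := by
      rw [one_mul]
      exact and_congr_right fun _ => lv_iff m r x z.toNat
    by_cases hz : LvZ valK (clsK m r) (th A0 c0 x) z
    · rw [if_pos hz, if_pos (h2.1 hz)]
    · rw [if_neg hz, if_neg (fun h => hz (h2.2 h))]
  rw [e]
  exact (h1 N hN α).trans (mul_le_mul_of_nonneg_right (min_le_left _ _) (Nat.cast_nonneg _))

theorem app_level {δ : ℝ} (h : DenK δ) {m : ℕ} (hm : 1 ≤ m) (r : ℤ) (x : ℝ) :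
    App (fun _ => LvZ valK (clsK m r) (th A0 c0 x)) (δ * Phi x / m) :=
  App_lawG A0_pos.le c0_pos (d := fun x => δ * Phi x / m) ((Phi_continuous.const_mul δ).div_const _)
    (fun y => Dn_iff (fun n _ => (lv_iff m r y n).symm) (h.law m r hm y)) x

lemma lv_one (x : ℝ) (n : ℕ) : Lv valK (clsK 1 0) (th A0 c0 x) n ↔ Lv valK (fun _ _ => True) (th A0 c0 x) n := by
  unfold Lv
  refine exists_congr fun k => and_congr_right fun _ => and_congr_right fun _ => ?_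
  unfold clsK
  rw [Int.ModEq]
  simp

theorem DenK.lawG {δ : ℝ} (h : DenK δ) : LawG valK A0 c0 δ := by
  intro x
  have h1 := h.law 1 0 le_rfl x
  simp only [Nat.cast_one, div_one] at h1
  exact Dn_iff (fun n _ => (lv_iff 1 0 x n).symm.trans (lv_one x n)) h1

theorem fouG {δ : ℝ} (h : DenK δ) (y : ℝ) : Fou (fun _ => LG valK A0 c0 y) (δ * Phi y) := by
  have h1 := fou_level h le_rfl 0 y
  simp only [Nat.cast_one, div_one] at h1
  have e : LvZ valK (clsK 1 0) (th A0 c0 y) = LG valK A0 c0 y := by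
    funext z
    apply propext
    exact and_congr_right fun _ => lv_one y z.toNat
  rw [e] at h1
  exact h1

theorem denK : ∃ δ : ℝ, DenK δ ∧ (δ = 1 ↔ ∀ n : ℕ, 1 ≤ n → ∃ k : ℕ, Tn^[k] n = 1) ∧
    Dn (fun n => ∃ k : ℕ, Tn^[k] n = 1) δ := by
  obtain ⟨δ, h0, h1, h2, h3, h4⟩ := lawE
  have hB : Dn (fun n => ∃ k : ℕ, H k n) δ := by
    refine Dn_iff (fun n _ => ?_) h3
    constructor
    · intro h
      classical
      exact ⟨Nat.find h, Nat.find_spec h, fun i hi => Nat.find_min h hi⟩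
    · rintro ⟨k, hk⟩; exact ⟨k, hk.1⟩
  exact ⟨δ, ⟨h0, h1, hB, h4⟩, h2, h3⟩

end Pool.Agent.TH465.PP
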